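import Mathlib

/-!
# MP_f4f39d_al, Q2 (specialist): Leonard triples extending the sl2 Krawtchouk pair

Interface of helper62. Q2 is DISPROVED for every `d ≥ 1` by `Aε = A + (3/4) A*`.

Proof. Let `A, A*` act on binary forms of degree `d`: `K^{d+1} → K[x,y]_d`,
`e_i ↦ C(d,i) x^{d-i} y^i`. Then `A` is the derivation `x ↦ y, y ↦ x` and `A*` the derivation
`x ↦ x, y ↦ -y`. For a derivation `D` with `D u = p u + q v`, `D v = r u + t v` (`u, v` linear forms)
`D (u^{d-i} v^i) = ((d-i) p + i t) u^{d-i} v^i + (d-i) q u^{d-i-1} v^{i+1} + i r u^{d-i+1} v^{i-1}`,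
so in the basis `u^{d-i} v^i` (a basis when `u, v` are independent) `D` is irreducible tridiagonal
when `q, r ≠ 0`, and diagonal when `q = r = 0`.
* basis `x, y`: `A*` diagonal, `A`, `A + (3/4) A*` have `q, r ≠ 0` (`1, 1`).
* `u = x + y, v = x - y`: `A u = u, A v = -v`; `A* u = v, A* v = u`; `Aε`: `q = r = 3/4`.
* `u = 2x + y, v = x - 2y`: `Aε u = (5/4) u, Aε v = -(5/4) v`; `A u = (4u - 3v)/5`,
  `A v = (-3u - 4v)/5`; `A* u = (3u + 4v)/5`, `A* v = (4u - 3v)/5`.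
So `(A, A*, Aε)` is a Leonard triple. `[A, A*] = A A* - A* A` has entries
`(i,i+1)`: `(d-i) (θ_{i+1} - θ_i) = -2 (d-i)`, `(i+1,i)`: `2 (i+1)`. If it were
`a + b A + c A* + e Aε`, the entries `(0,1)` and `(1,0)` give `(b+e) d = -2 d` and `b + e = 2`:
contradiction (characteristic `0`, `d ≥ 1`).
-/

namespace Pool.Agent.Run7.h62.LT

open Matrix

/-- Irreducible tridiagonal. -/
def IrredTridiagonal {n : ℕ} {K : Type*} [Field K] (M : Matrix (Fin n) (Fin n) K) : Prop :=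
  (∀ i j : Fin n, (i : ℕ) + 1 < j ∨ (j : ℕ) + 1 < i → M i j = 0) ∧
  (∀ i j : Fin n, (i : ℕ) + 1 = j → M i j ≠ 0 ∧ M j i ≠ 0)

/-- In some basis `X` is diagonal and `Y`, `Z` are irreducible tridiagonal. -/
def DiagTri {K : Type*} [Field K] {V : Type*} [AddCommGroup V] [Module K V]
    (X Y Z : V →ₗ[K] V) : Prop :=
  ∃ (n : ℕ) (b : Module.Basis (Fin n) K V), (LinearMap.toMatrix b b X).IsDiag ∧
    IrredTridiagonal (LinearMap.toMatrix b b Y) ∧ IrredTridiagonal (LinearMap.toMatrix b b Z)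

/-- Leonard triple. -/
def LeonardTriple {K : Type*} [Field K] {V : Type*} [AddCommGroup V] [Module K V]
    (X Y Z : V →ₗ[K] V) : Prop :=
  DiagTri X Y Z ∧ DiagTri Y Z X ∧ DiagTri Z X Y

/-- The matrix `A`: `A_{i,i+1} = d - i`, `A_{i+1,i} = i + 1`. -/
def matA (K : Type*) [Field K] (d : ℕ) : Matrix (Fin (d + 1)) (Fin (d + 1)) K :=
  Matrix.of fun i j => if (j : ℕ) = i + 1 then (d : K) - (i : ℕ)
    else if (i : ℕ) = j + 1 then (i : ℕ) else 0

/-- The matrix `A* = diag (d, d-2, …, -d)`. -/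
def matAs (K : Type*) [Field K] (d : ℕ) : Matrix (Fin (d + 1)) (Fin (d + 1)) K :=
  Matrix.diagonal fun i => (d : K) - 2 * (i : ℕ)

/-- The target: Q2 is false for every `d ≥ 1`. -/
def S_LT : Prop := ∀ (K : Type) [Field K] [IsAlgClosed K] [CharZero K] (d : ℕ), 1 ≤ d →
  ∃ E : Matrix (Fin (d + 1)) (Fin (d + 1)) K,
    LeonardTriple (Matrix.toLin' (matA K d)) (Matrix.toLin' (matAs K d)) (Matrix.toLin' E) ∧
    matA K d * matAs K d - matAs K d * matA K d ∉
      Submodule.span K ({1, matA K d, matAs K d, E} : Set (Matrix (Fin (d + 1)) (Fin (d + 1)) K))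

end Pool.Agent.Run7.h62.LT
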